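import Pool.Agent.Q182.SP.Socle

set_option autoImplicit false

/-!
# Horrocks' bounds for the modules `F / (f) U`

`β_i(F / (f) U) ≥ r * binom(m, i)` if `U` contains `r` independent elements (statements (0), (4) in `Pool/Agent/Q182/SP/Socle.lean`). (Theorem of helper50; one of the parts of the former joined hand-in NonIntegralSocle.)
-/

namespace Pool.Agent.Results.MP_e2ce73_al.IdealTimesSubmodule

open Pool.Agent.Q182.SP.Socle

universe u v z

theorem result (k : Type u) [Field k] (S : Type z) [CommRing S] [Algebra k S] (m : ℕ)
    (f : Fin m → S) :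
    RankBound.{u, v, z} k f ∧ ProductBound.{u, v, z} k f :=
  ⟨rankBound k f, productBound k f⟩

end Pool.Agent.Results.MP_e2ce73_al.IdealTimesSubmodule
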