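import Pool.Agent.Q182.SP.Socle

set_option autoImplicit false

/-!
# Horrocks' bounds and integral dependence

A module `M = F / L` with `β_i(M) < binom(m, i)` has its socle in the image of the integral closure of `L`; integrally closed ideals satisfy Horrocks' bounds (statements (0), (2), (3) in `Pool/Agent/Q182/SP/Socle.lean`). (Theorem of helper50; one of the parts of the former joined hand-in NonIntegralSocle.)
-/

namespace Pool.Agent.Results.MP_e2ce73_al.NonIntegralSocleBounds

open Pool.Agent.Q182.SP.Socle

universe u v w y z

theorem result (k : Type u) [Field k] (S : Type z) [CommRing S] [Algebra k S] (m : ℕ)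
    (f : Fin m → S) :
    RankBound.{u, v, z} k f ∧ IntegralCriterion.{u, v, w, y, z} k f ∧ IdealCriterion k f :=
  ⟨rankBound k f, integralCriterion k f, idealCriterion k f⟩

end Pool.Agent.Results.MP_e2ce73_al.NonIntegralSocleBounds
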