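import Pool.Agent.Q2.PL.Fin

set_option autoImplicit false

/-!
# Horrocks' bounds for modules with separating linear forms

Let `M` be a graded module of finite length over `k[x_1, …, x_n, x]`. The linear form `x` separates
the degrees if for every total degree `a` and every `i` one of `Tor_i(M / x M, k)_a` and
`Tor_(i - 2)(0 :_M x, k)_(a - deg x)` (over `k[x_1, …, x_n]`) vanishes. Then
`β_i(M) ≥ β_i(M / x M) + β_(i - 1)(0 :_M x)`, hence Horrocks' bounds for `M / x M` and `0 :_M x`
imply Horrocks' bounds for `M`.

(1) Horrocks' bounds `rank F_i ≥ m.choose i` hold for all modules `M` in the class `Peelable`, the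
smallest class which contains all modules with at most four operators and all modules with a coarse
multigrading as in `Pool.Agent.W650.Good`, and is closed under this construction (for gradings by
arbitrary abelian groups and operators of arbitrary degrees), under passage from a nonzero direct
summand to `M`, and under passage to `m ≥ r` operators in the ideal generated by `r` operators (in
particular under linear changes of coordinates).

(2) In the simplest case no assumption on `M / ℓ M` and `0 :_M ℓ` is left: let `M` be a nonzero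
graded module of finite length over the polynomial ring in five variables over an infinite field,
and let `ℓ` be a linear form such that for every degree `b` the map `ℓ : M_(b - 1) → M_b` is
surjective or the map `ℓ : M_(b + 1) → M_(b + 2)` is injective. (If `M` is cyclic this means that
two consecutive of the maps `ℓ : M_b → M_(b + 1)` are bijective, the earlier ones injective and the
later ones surjective.) Then `rank F_i ≥ binom(5, i)` for every resolution by finite free modules.
-/

namespace Pool.Agent.Results.MP_e2ce73_al.SeparatingForms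

open MvPolynomial Pool.Agent.Q2.PL

universe u v w x y

/-- `F` is a resolution of `M` by finite free modules. -/
structure IsFreeResolution (S : Type y) [CommRing S] (M : Type v) [AddCommGroup M] [Module S M]
    (F : ℕ → Type v) [∀ i, AddCommGroup (F i)] [∀ i, Module S (F i)]
    (d : ∀ i, F (i + 1) →ₗ[S] F i) (ε : F 0 →ₗ[S] M) : Prop where
  free : ∀ i, Module.Free S (F i)
  finite : ∀ i, Module.Finite S (F i)
  surj : Function.Surjective ε
  exact_zero : LinearMap.range (d 0) = LinearMap.ker ε
  exact : ∀ i, LinearMap.range (d (i + 1)) = LinearMap.ker (d i)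

/-- the operators given by the elements `f 0, …, f (m - 1)` -/
noncomputable def operators (k : Type u) [Field k] {S : Type y} [CommRing S] [Algebra k S] {m : ℕ}
    (f : Fin m → S) (M : Type v) [AddCommGroup M] [Module k M] [Module S M]
    [IsScalarTower k S M] : ℕ → M →ₗ[k] M :=
  fun j => if h : j < m then Algebra.lsmul k k M (f ⟨j, h⟩) else 0

theorem result :
    -- (1) peelable modules
    (∀ (k : Type u) [Field k] (S : Type y) [CommRing S] [Algebra k S] (m : ℕ) (f : Fin m → S)
      (_ : ∀ (l : Fin m) (s : S), f l * s ∈ Ideal.span (f '' Set.Iio l) →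
        s ∈ Ideal.span (f '' Set.Iio l))
      (_ : ∀ s : S, ∃ c : k, s - algebraMap k S c ∈ Ideal.span (Set.range f))
      (M : Type v) [AddCommGroup M] [Module k M] [FiniteDimensional k M] [Nontrivial M]
      [Module S M] [IsScalarTower k S M] (_ : ∀ j, ∃ N : ℕ, ∀ v : M, f j ^ N • v = 0)
      (_ : Peelable.{u, v, w, x} k m M (operators k f M))
      (F : ℕ → Type v) [∀ i, AddCommGroup (F i)] [∀ i, Module S (F i)]
      (d : ∀ i, F (i + 1) →ₗ[S] F i) (ε : F 0 →ₗ[S] M) (_ : IsFreeResolution S M F d ε) (i : ℕ),
      m.choose i ≤ Module.finrank S (F i)) ∧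
    -- (2) five variables
    (∀ (k : Type u) [Field k] [Infinite k] (c : Fin 5 → k) (_ : c ≠ 0)
      (M : Type v) [AddCommGroup M] [Module k M] [FiniteDimensional k M] [Nontrivial M]
      [Module (MvPolynomial (Fin 5) k) M] [IsScalarTower k (MvPolynomial (Fin 5) k) M]
      (ℳ : ℤ → Submodule k M) (_ : DirectSum.IsInternal ℳ)
      (_ : ∀ (j : Fin 5) (a : ℤ), ∀ m ∈ ℳ a, (X j : MvPolynomial (Fin 5) k) • m ∈ ℳ (a + 1))
      (_ : ∀ b : ℤ,
        (∀ m ∈ ℳ b, ∃ m' : M, (∑ j, C (c j) * X j : MvPolynomial (Fin 5) k) • m' = m) ∨
        ∀ m ∈ ℳ (b + 1), (∑ j, C (c j) * X j : MvPolynomial (Fin 5) k) • m = 0 → m = 0)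
      (F : ℕ → Type v) [∀ i, AddCommGroup (F i)] [∀ i, Module (MvPolynomial (Fin 5) k) (F i)]
      (d : ∀ i, F (i + 1) →ₗ[MvPolynomial (Fin 5) k] F i)
      (ε : F 0 →ₗ[MvPolynomial (Fin 5) k] M)
      (_ : IsFreeResolution (MvPolynomial (Fin 5) k) M F d ε) (i : ℕ),
      Nat.choose 5 i ≤ Module.finrank (MvPolynomial (Fin 5) k) (F i)) := by
  refine ⟨?_, ?_⟩
  · intro k _ S _ _ m f hreg hres M _ _ _ _ _ _ hnil hM F _ _ d ε hF i
    have := hF.free
    have := hF.finite
    exact final k S m f hreg hres M hnil hM F d ε hF.surj hF.exact_zero hF.exact i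
  · intro k _ _ c hc M _ _ _ _ _ _ ℳ hℳ hX hsep F _ _ d ε hF i
    have := hF.free
    have := hF.finite
    exact five k c hc M ℳ hℳ hX hsep F d ε hF.surj hF.exact_zero hF.exact i

end Pool.Agent.Results.MP_e2ce73_al.SeparatingForms
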